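import Mathlib

/-! The 3-graphs with three corners: edges and copies of `K_4^3` in terms of the colours (part and
level) of the vertices. -/

set_option autoImplicit false
set_option maxRecDepth 100000

namespace Pool.Agent.T2h36.SS

/-- part and level: `2` for the vertices of `S`, `1` for those of `T` outside `S`, `0` otherwise -/
abbrev Col : Type := Fin 3 × Fin 3

/-- the third vertex completes a pair of vertices of the same part -/
def QE (x y z : Col) : Bool :=
  decide (x.1 = y.1) && (if x.2 = 2 ∧ y.2 = 2 then
    (decide (z.1 = x.1) && decide (z.2 ≠ 2)) || (decide (z.1 = x.1 + 2) && decide (z.2 ≠ 0))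
    else decide (z.1 = x.1 + 1))

/-- three parts -/
def TE (x y z : Col) : Bool := decide (x.1 ≠ y.1) && decide (y.1 ≠ z.1) && decide (x.1 ≠ z.1)

/-- the edges -/
def E (x y z : Col) : Bool := TE x y z || QE x y z || QE y z x || QE z x y

/-- the copies of `K_4^3`: two vertices of level at least one (but not both of level two) in a part
and two vertices of level two in the next part -/
def UE (x y z w : Col) : Bool :=
  decide (x.1 = y.1) && decide (x.2 ≠ 0) && decide (y.2 ≠ 0) && (!(decide (x.2 = 2) && decide (y.2 = 2))) &&
    decide (z.1 = x.1 + 1) && decide (w.1 = x.1 + 1) && decide (z.2 = 2) && decide (w.2 = 2)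

theorem E_swap : ∀ x y z : Col, E x y z = E y x z := by decide +kernel
theorem E_rot : ∀ x y z : Col, E x y z = E y z x := by decide +kernel
theorem E_ind : ∀ x y z : Col, (E x y z).toNat =
    (TE x y z).toNat + (QE x y z).toNat + (QE y z x).toNat + (QE z x y).toNat := by decide +kernel

theorem K4_ind : ∀ x y z w : Col, (E x y z && E x y w && E x z w && E y z w).toNat =
    (UE x y z w).toNat + (UE x z y w).toNat + (UE x w y z).toNat + (UE y z x w).toNat +
      (UE y w x z).toNat + (UE z w x y).toNat := by decide +kernel

end Pool.Agent.T2h36.SS
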