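import Pool.Agent.T2h36.Flag

/-! Ordered counts of the members of a family of 3-sets or 4-sets. -/

set_option autoImplicit false
set_option linter.unusedSectionVars false
open Finset

namespace Pool.Agent.T2h36.SS

section
variable {V : Type} [Fintype V] [DecidableEq V]

/-- the number of embeddings with image in the family -/
theorem emb_card {s : ℕ} (F : Finset (Finset V)) (hF : ∀ e ∈ F, e.card = s) :
    ((univ.filter fun θ : Fin s ↪ V => univ.map θ ∈ F).card : ℝ) = (s.factorial : ℝ) * F.card := by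
  by_cases hV : s ≤ Fintype.card V
  · have h := fam_eq F hF hV
    rw [Finset.sum_boole, Fintype.card_embedding_eq, Fintype.card_fin] at h
    have h1 : (((Fintype.card V).descFactorial s : ℕ) : ℝ) =
        (s.factorial : ℝ) * (((Fintype.card V).choose s : ℕ) : ℝ) := by
      rw [Nat.descFactorial_eq_factorial_mul_choose]
      push_cast
      ring
    have h2 : (((Fintype.card V).choose s : ℕ) : ℝ) ≠ 0 := by
      have := Nat.choose_pos hV
      positivity
    have h3 : (s.factorial : ℝ) ≠ 0 := by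
      have := Nat.factorial_pos s
      positivity
    rw [h1] at h
    field_simp at h
    linarith
  · have h1 : F = ∅ := by
      refine Finset.eq_empty_of_forall_notMem fun e he => hV ?_
      rw [← hF e he]
      exact card_le_univ e
    rw [h1]
    simp

theorem emb_sum3 (P : V → V → V → Prop) [∀ a b c, Decidable (P a b c)] :
    (univ.filter fun θ : Fin 3 ↪ V => P (θ 0) (θ 1) (θ 2)).card =
      ∑ a : V, ∑ b : V, ∑ c : V, if (a ≠ b ∧ a ≠ c ∧ b ≠ c) ∧ P a b c then 1 else 0 := by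
  have h1 : (∑ a : V, ∑ b : V, ∑ c : V, if (a ≠ b ∧ a ≠ c ∧ b ≠ c) ∧ P a b c then 1 else 0) =
      (univ.filter fun t : V × V × V => (t.1 ≠ t.2.1 ∧ t.1 ≠ t.2.2 ∧ t.2.1 ≠ t.2.2) ∧ P t.1 t.2.1 t.2.2).card := by
    rw [Finset.card_filter, Fintype.sum_prod_type]
    refine Finset.sum_congr rfl fun a _ => ?_
    rw [Fintype.sum_prod_type]
  rw [h1]
  refine Finset.card_bij (fun θ _ => (θ 0, θ 1, θ 2)) ?_ ?_ ?_
  · intro θ hθ
    simp only [mem_filter, mem_univ, true_and] at hθ ⊢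
    exact ⟨⟨θ.injective.ne (by decide), θ.injective.ne (by decide), θ.injective.ne (by decide)⟩, hθ⟩
  · intro θ _ θ' _ h
    simp only [Prod.mk.injEq] at h
    refine DFunLike.ext _ _ fun i => ?_
    fin_cases i
    · exact h.1
    · exact h.2.1
    · exact h.2.2
  · rintro ⟨a, b, c⟩ ht
    simp only [mem_filter, mem_univ, true_and] at ht
    obtain ⟨⟨h1, h2, h3⟩, hP⟩ := ht
    have hinj : Function.Injective ![a, b, c] := by
      intro i j hij
      fin_cases i <;> fin_cases j <;> simp_all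
    exact ⟨⟨![a, b, c], hinj⟩, by simpa using hP, rfl⟩

theorem inj4 {a b c d : V} (h1 : a ≠ b) (h2 : a ≠ c) (h3 : a ≠ d) (h4 : b ≠ c) (h5 : b ≠ d) (h6 : c ≠ d) :
    Function.Injective ![a, b, c, d] := by
  intro i j hij
  fin_cases i <;> fin_cases j
  · rfl
  · exact absurd hij h1
  · exact absurd hij h2
  · exact absurd hij h3
  · exact absurd hij.symm h1
  · rfl
  · exact absurd hij h4
  · exact absurd hij h5
  · exact absurd hij.symm h2
  · exact absurd hij.symm h4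
  · rfl
  · exact absurd hij h6
  · exact absurd hij.symm h3
  · exact absurd hij.symm h5
  · exact absurd hij.symm h6
  · rfl

theorem emb_sum4 (P : V → V → V → V → Prop) [∀ a b c d, Decidable (P a b c d)] :
    (univ.filter fun θ : Fin 4 ↪ V => P (θ 0) (θ 1) (θ 2) (θ 3)).card =
      ∑ a : V, ∑ b : V, ∑ c : V, ∑ d : V,
        if (a ≠ b ∧ a ≠ c ∧ a ≠ d ∧ b ≠ c ∧ b ≠ d ∧ c ≠ d) ∧ P a b c d then 1 else 0 := by
  have h1 : (∑ a : V, ∑ b : V, ∑ c : V, ∑ d : V,
        if (a ≠ b ∧ a ≠ c ∧ a ≠ d ∧ b ≠ c ∧ b ≠ d ∧ c ≠ d) ∧ P a b c d then 1 else 0) =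
      (univ.filter fun t : V × V × V × V => (t.1 ≠ t.2.1 ∧ t.1 ≠ t.2.2.1 ∧ t.1 ≠ t.2.2.2 ∧ t.2.1 ≠ t.2.2.1 ∧
        t.2.1 ≠ t.2.2.2 ∧ t.2.2.1 ≠ t.2.2.2) ∧ P t.1 t.2.1 t.2.2.1 t.2.2.2).card := by
    rw [Finset.card_filter, Fintype.sum_prod_type]
    refine Finset.sum_congr rfl fun a _ => ?_
    rw [Fintype.sum_prod_type]
    refine Finset.sum_congr rfl fun b _ => ?_
    rw [Fintype.sum_prod_type]
  rw [h1]
  refine Finset.card_bij (fun θ _ => (θ 0, θ 1, θ 2, θ 3)) ?_ ?_ ?_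
  · intro θ hθ
    simp only [mem_filter, mem_univ, true_and] at hθ ⊢
    exact ⟨⟨θ.injective.ne (by decide), θ.injective.ne (by decide), θ.injective.ne (by decide),
      θ.injective.ne (by decide), θ.injective.ne (by decide), θ.injective.ne (by decide)⟩, hθ⟩
  · intro θ _ θ' _ h
    simp only [Prod.mk.injEq] at h
    refine DFunLike.ext _ _ fun i => ?_
    fin_cases i
    · exact h.1
    · exact h.2.1
    · exact h.2.2.1
    · exact h.2.2.2
  · rintro ⟨a, b, c, d⟩ ht
    simp only [mem_filter, mem_univ, true_and] at ht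
    obtain ⟨⟨h1, h2, h3, h4, h5, h6⟩, hP⟩ := ht
    have hinj : Function.Injective ![a, b, c, d] := inj4 h1 h2 h3 h4 h5 h6
    exact ⟨⟨![a, b, c, d], hinj⟩, by simpa using hP, rfl⟩

theorem map3 (θ : Fin 3 ↪ V) : univ.map θ = {θ 0, θ 1, θ 2} := by
  ext x
  simp only [mem_map, mem_univ, true_and, mem_insert, mem_singleton]
  constructor
  · rintro ⟨i, rfl⟩
    fin_cases i <;> simp
  · rintro (rfl | rfl | rfl)
    · exact ⟨0, rfl⟩
    · exact ⟨1, rfl⟩
    · exact ⟨2, rfl⟩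

theorem map4 (θ : Fin 4 ↪ V) : univ.map θ = {θ 0, θ 1, θ 2, θ 3} := by
  ext x
  simp only [mem_map, mem_univ, true_and, mem_insert, mem_singleton]
  constructor
  · rintro ⟨i, rfl⟩
    fin_cases i <;> simp
  · rintro (rfl | rfl | rfl | rfl)
    · exact ⟨0, rfl⟩
    · exact ⟨1, rfl⟩
    · exact ⟨2, rfl⟩
    · exact ⟨3, rfl⟩

/-- six times the number of members of a family of 3-sets -/
theorem ord3 (F : Finset (Finset V)) (hF : ∀ e ∈ F, e.card = 3) :
    6 * F.card = ∑ a : V, ∑ b : V, ∑ c : V, if (a ≠ b ∧ a ≠ c ∧ b ≠ c) ∧ ({a, b, c} : Finset V) ∈ F then 1 else 0 := by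
  rw [← emb_sum3 (fun a b c => ({a, b, c} : Finset V) ∈ F)]
  have h := emb_card F hF
  simp_rw [map3] at h
  have h3 : ((Nat.factorial 3 : ℕ) : ℝ) = 6 := by norm_num [Nat.factorial]
  rw [h3] at h
  exact_mod_cast h.symm

/-- 24 times the number of members of a family of 4-sets -/
theorem ord4 (F : Finset (Finset V)) (hF : ∀ e ∈ F, e.card = 4) :
    24 * F.card = ∑ a : V, ∑ b : V, ∑ c : V, ∑ d : V,
      if (a ≠ b ∧ a ≠ c ∧ a ≠ d ∧ b ≠ c ∧ b ≠ d ∧ c ≠ d) ∧ ({a, b, c, d} : Finset V) ∈ F then 1 else 0 := by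
  rw [← emb_sum4 (fun a b c d => ({a, b, c, d} : Finset V) ∈ F)]
  have h := emb_card F hF
  simp_rw [map4] at h
  have h3 : ((Nat.factorial 4 : ℕ) : ℝ) = 24 := by norm_num [Nat.factorial]
  rw [h3] at h
  exact_mod_cast h.symm

end

end Pool.Agent.T2h36.SS
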