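import Pool.Agent.T2h36.SS.Col
import Pool.Agent.T2h36.SS.Ord

/-! The 3-graphs with three corners: the numbers of edges and of copies of `K_4^3`. -/

set_option autoImplicit false
set_option linter.unusedSectionVars false
open Finset

namespace Pool.Agent.T2h36.SS

section
variable {V : Type} [Fintype V] [DecidableEq V]

/-- part and level -/
def col (g : V → Fin 3) (S T : Finset V) (v : V) : Col := (g v, if v ∈ S then 2 else if v ∈ T then 1 else 0)

/-- the 3-graph -/
def HF (g : V → Fin 3) (S T : Finset V) : Finset (Finset V) :=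
  univ.filter fun e => e.card = 3 ∧ ∀ a ∈ e, ∀ b ∈ e, ∀ c ∈ e, a ≠ b → a ≠ c → b ≠ c →
    E (col g S T a) (col g S T b) (col g S T c) = true

/-- the 4-sets spanning all four triples -/
def k4set (H : Finset (Finset V)) : Finset (Finset V) :=
  univ.filter fun e => e.card = 4 ∧ ∀ f ⊆ e, f.card = 3 → f ∈ H

variable (g : V → Fin 3) (S T : Finset V)

theorem HF_is3 : Is3 (HF g S T) := fun _ he => (mem_filter.mp he).2.1

theorem mem_HF {a b c : V} (h1 : a ≠ b) (h2 : a ≠ c) (h3 : b ≠ c) :
    ({a, b, c} : Finset V) ∈ HF g S T ↔ E (col g S T a) (col g S T b) (col g S T c) = true := by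
  unfold HF
  rw [mem_filter]
  constructor
  · rintro ⟨-, -, h⟩
    exact h a (by simp) b (by simp) c (by simp) h1 h2 h3
  · intro h
    refine ⟨mem_univ _, Finset.card_eq_three.mpr ⟨a, b, c, h1, h2, h3, rfl⟩, ?_⟩
    intro x hx y hy z hz hxy hxz hyz
    simp only [mem_insert, mem_singleton] at hx hy hz
    rcases hx with rfl | rfl | rfl <;> rcases hy with rfl | rfl | rfl <;> rcases hz with rfl | rfl | rfl
    all_goals first
      | exact absurd rfl hxy
      | exact absurd rfl hxz
      | exact absurd rfl hyz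
      | exact h
      | (rw [E_swap]; exact h)
      | (rw [E_rot]; exact h)
      | (rw [E_rot, E_rot]; exact h)
      | (rw [E_rot, E_swap]; exact h)
      | (rw [E_swap, E_rot]; exact h)
      | (rw [E_rot, E_rot, E_swap]; exact h)

/-! sums over ordered triples and quadruples -/

/-- sum over the triples of distinct vertices -/
def A3 (F : V → V → V → ℤ) : ℤ := ∑ a : V, ∑ b : V, ∑ c : V, if a ≠ b ∧ a ≠ c ∧ b ≠ c then F a b c else 0

theorem A3_rot (F : V → V → V → ℤ) : A3 (fun a b c => F b c a) = A3 F := by
  unfold A3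
  beta_reduce
  rw [Finset.sum_comm]
  refine Finset.sum_congr rfl fun a _ => ?_
  rw [Finset.sum_comm]
  refine Finset.sum_congr rfl fun b _ => Finset.sum_congr rfl fun c _ => ?_
  refine if_congr ?_ rfl rfl
  exact ⟨fun h => ⟨h.2.2, h.1.symm, h.2.1.symm⟩, fun h => ⟨h.2.1.symm, h.2.2.symm, h.1⟩⟩

theorem A3_add (F F' : V → V → V → ℤ) : A3 (fun a b c => F a b c + F' a b c) = A3 F + A3 F' := by
  unfold A3
  beta_reduce
  simp only [← Finset.sum_add_distrib]
  refine Finset.sum_congr rfl fun a _ => Finset.sum_congr rfl fun b _ => Finset.sum_congr rfl fun c _ => ?_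
  split_ifs <;> ring

/-- sum over the quadruples of distinct vertices -/
def A4 (F : V → V → V → V → ℤ) : ℤ := ∑ a : V, ∑ b : V, ∑ c : V, ∑ d : V,
  if a ≠ b ∧ a ≠ c ∧ a ≠ d ∧ b ≠ c ∧ b ≠ d ∧ c ≠ d then F a b c d else 0

theorem A4_s12 (F : V → V → V → V → ℤ) : A4 (fun a b c d => F b a c d) = A4 F := by
  unfold A4
  beta_reduce
  rw [Finset.sum_comm]
  refine Finset.sum_congr rfl fun a _ => Finset.sum_congr rfl fun b _ => Finset.sum_congr rfl fun c _ =>
    Finset.sum_congr rfl fun d _ => ?_
  refine if_congr ?_ rfl rfl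
  exact ⟨fun h => ⟨h.1.symm, h.2.2.2.1, h.2.2.2.2.1, h.2.1, h.2.2.1, h.2.2.2.2.2⟩,
    fun h => ⟨h.1.symm, h.2.2.2.1, h.2.2.2.2.1, h.2.1, h.2.2.1, h.2.2.2.2.2⟩⟩

theorem A4_s23 (F : V → V → V → V → ℤ) : A4 (fun a b c d => F a c b d) = A4 F := by
  unfold A4
  beta_reduce
  refine Finset.sum_congr rfl fun a _ => ?_
  rw [Finset.sum_comm]
  refine Finset.sum_congr rfl fun b _ => Finset.sum_congr rfl fun c _ =>
    Finset.sum_congr rfl fun d _ => ?_
  refine if_congr ?_ rfl rfl
  exact ⟨fun h => ⟨h.2.1, h.1, h.2.2.1, h.2.2.2.1.symm, h.2.2.2.2.2, h.2.2.2.2.1⟩,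
    fun h => ⟨h.2.1, h.1, h.2.2.1, h.2.2.2.1.symm, h.2.2.2.2.2, h.2.2.2.2.1⟩⟩

theorem A4_s34 (F : V → V → V → V → ℤ) : A4 (fun a b c d => F a b d c) = A4 F := by
  unfold A4
  beta_reduce
  refine Finset.sum_congr rfl fun a _ => Finset.sum_congr rfl fun b _ => ?_
  rw [Finset.sum_comm]
  refine Finset.sum_congr rfl fun c _ => Finset.sum_congr rfl fun d _ => ?_
  refine if_congr ?_ rfl rfl
  exact ⟨fun h => ⟨h.1, h.2.2.1, h.2.1, h.2.2.2.2.1, h.2.2.2.1, h.2.2.2.2.2.symm⟩,
    fun h => ⟨h.1, h.2.2.1, h.2.1, h.2.2.2.2.1, h.2.2.2.1, h.2.2.2.2.2.symm⟩⟩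

theorem A4_add (F F' : V → V → V → V → ℤ) :
    A4 (fun a b c d => F a b c d + F' a b c d) = A4 F + A4 F' := by
  unfold A4
  beta_reduce
  simp only [← Finset.sum_add_distrib]
  refine Finset.sum_congr rfl fun a _ => Finset.sum_congr rfl fun b _ => Finset.sum_congr rfl fun c _ =>
    Finset.sum_congr rfl fun d _ => ?_
  split_ifs <;> ring

/-- all six ways to divide four vertices into two ordered pairs -/
theorem A4_six (F : V → V → V → V → ℤ) :
    A4 (fun a b c d => F a b c d + F a c b d + F a d b c + F b c a d + F b d a c + F c d a b) = 6 * A4 F := by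
  have e1 : A4 (fun a b c d => F a c b d) = A4 F := A4_s23 F
  have e2 : A4 (fun a b c d => F a d b c) = A4 F := by
    rw [← e1, ← A4_s34 (fun a b c d => F a c b d)]
  have e3 : A4 (fun a b c d => F b c a d) = A4 F := by
    rw [← e1, ← A4_s12 (fun a b c d => F a c b d)]
  have e4 : A4 (fun a b c d => F b d a c) = A4 F := by
    rw [← e2, ← A4_s12 (fun a b c d => F a d b c)]
  have e5 : A4 (fun a b c d => F c d a b) = A4 F := by
    rw [← e4, ← A4_s23 (fun a b c d => F b d a c)]
  rw [A4_add (fun a b c d => F a b c d + F a c b d + F a d b c + F b c a d + F b d a c),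
    A4_add (fun a b c d => F a b c d + F a c b d + F a d b c + F b c a d),
    A4_add (fun a b c d => F a b c d + F a c b d + F a d b c),
    A4_add (fun a b c d => F a b c d + F a c b d), A4_add F, e1, e2, e3, e4, e5]
  ring

/-! sizes -/

/-- the size of a part, of the part of `S` and of `T` in it -/
def vv (i : Fin 3) : ℤ := ((univ.filter fun v : V => g v = i).card : ℤ)
def ss (i : Fin 3) : ℤ := ((S.filter fun v : V => g v = i).card : ℤ)
def tt (i : Fin 3) : ℤ := ((T.filter fun v : V => g v = i).card : ℤ)

theorem sum_fib (F : Fin 3 → ℤ) : ∑ a : V, F (g a) = ∑ i, vv g i * F i := by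
  rw [← Finset.sum_fiberwise (s := univ) (g := g)]
  refine Finset.sum_congr rfl fun i _ => ?_
  rw [Finset.sum_congr rfl (g := fun _ => F i) (fun a ha => by rw [(mem_filter.mp ha).2]), Finset.sum_const,
    nsmul_eq_mul]
  rfl

theorem sum_ind (X : Finset V) : ∑ a : V, (if a ∈ X then (1 : ℤ) else 0) = X.card := by
  rw [Finset.sum_boole]
  simp

/-- ordered pairs of distinct elements -/
theorem sum_off (X : Finset V) :
    ∑ a : V, ∑ b : V, (if a ≠ b then (if a ∈ X then (1 : ℤ) else 0) * (if b ∈ X then 1 else 0) else 0) =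
      X.card * (X.card - 1) := by
  have h1 : ∀ a b : V, (if a ≠ b then (if a ∈ X then (1 : ℤ) else 0) * (if b ∈ X then 1 else 0) else 0) =
      (if a ∈ X then (1 : ℤ) else 0) * (if b ∈ X then 1 else 0) - (if a = b then (if a ∈ X then 1 else 0) else 0) := by
    intro a b
    by_cases hab : a = b
    · subst hab
      by_cases ha : a ∈ X <;> simp [ha]
    · simp [hab]
  simp_rw [h1, Finset.sum_sub_distrib]
  rw [← Finset.sum_mul_sum, sum_ind]
  simp only [Finset.sum_ite_eq, mem_univ, if_true]
  rw [sum_ind]
  ring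

/-- the part `i` -/
def part (i : Fin 3) : Finset V := univ.filter fun v : V => g v = i

theorem mem_part {i : Fin 3} {v : V} : v ∈ part g i ↔ g v = i := by simp [part]

theorem i1 : ∀ i : Fin 3, i + 1 ≠ i := by decide
theorem i2 : ∀ i : Fin 3, i + 2 ≠ i := by decide
theorem i3 : ∀ i : Fin 3, i ≠ i + 2 := by decide

theorem A3_T : A3 (fun a b c => ((TE (col g S T a) (col g S T b) (col g S T c)).toNat : ℤ)) =
    6 * (vv g 0 * vv g 1 * vv g 2) := by
  set f : Fin 3 → Fin 3 → Fin 3 → ℤ := fun i j k => if i ≠ j ∧ j ≠ k ∧ i ≠ k then 1 else 0 with hf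
  have h1 : A3 (fun a b c => ((TE (col g S T a) (col g S T b) (col g S T c)).toNat : ℤ)) =
      ∑ a : V, ∑ b : V, ∑ c : V, f (g a) (g b) (g c) := by
    unfold A3
    beta_reduce
    refine Finset.sum_congr rfl fun a _ => Finset.sum_congr rfl fun b _ => Finset.sum_congr rfl fun c _ => ?_
    have e : ((TE (col g S T a) (col g S T b) (col g S T c)).toNat : ℤ) = f (g a) (g b) (g c) := by
      simp only [TE, col, hf]
      by_cases h1 : g a = g b <;> by_cases h2 : g b = g c <;> by_cases h3 : g a = g c <;> simp [h1, h2, h3]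
    rw [e]
    by_cases hd : a ≠ b ∧ a ≠ c ∧ b ≠ c
    · rw [if_pos hd]
    · rw [if_neg hd, hf]
      simp only
      rw [if_neg]
      rintro ⟨h1, h2, h3⟩
      exact hd ⟨fun h => h1 (by rw [h]), fun h => h3 (by rw [h]), fun h => h2 (by rw [h])⟩
  rw [h1]
  have h2 : ∀ a b : V, ∑ c : V, f (g a) (g b) (g c) = ∑ k, vv g k * f (g a) (g b) k := fun a b =>
    sum_fib g (fun k => f (g a) (g b) k)
  simp_rw [h2]
  have h3 : ∀ a : V, ∑ b : V, ∑ k, vv g k * f (g a) (g b) k = ∑ j, vv g j * ∑ k, vv g k * f (g a) j k := fun a =>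
    sum_fib g (fun j => ∑ k, vv g k * f (g a) j k)
  simp_rw [h3]
  rw [sum_fib g (fun i => ∑ j, vv g j * ∑ k, vv g k * f i j k)]
  simp only [hf, Fin.sum_univ_three]
  simp
  ring

variable {S T} in
theorem sum_Q (hST : S ⊆ T) (a b : V) :
    ∑ c : V, ((QE (col g S T a) (col g S T b) (col g S T c)).toNat : ℤ) =
      ∑ i, ((if a ∈ part g i then (1 : ℤ) else 0) * (if b ∈ part g i then 1 else 0) * vv g (i + 1) +
        (if a ∈ S.filter (fun v => g v = i) then (1 : ℤ) else 0) * (if b ∈ S.filter (fun v => g v = i) then 1 else 0) *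
          (vv g i - ss g S i + tt g T (i + 2) - vv g (i + 1))) := by
  have hc2 : ∀ v : V, (col g S T v).2 = 2 ↔ v ∈ S := by
    intro v
    simp only [col]
    by_cases h1 : v ∈ S
    · simp [h1]
    · by_cases h2 : v ∈ T <;> simp [h1, h2]
  have hc0 : ∀ v : V, (col g S T v).2 ≠ 0 ↔ v ∈ T := by
    intro v
    simp only [col]
    by_cases h1 : v ∈ S
    · simp [h1, hST h1]
    · by_cases h2 : v ∈ T <;> simp [h1, h2]
  by_cases hg : g a = g b
  swap
  · -- different parts
    have h1 : ∀ c : V, ((QE (col g S T a) (col g S T b) (col g S T c)).toNat : ℤ) = 0 := by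
      intro c
      have : (col g S T a).1 ≠ (col g S T b).1 := hg
      simp [QE, this]
    rw [Finset.sum_congr rfl fun c _ => h1 c, Finset.sum_const_zero]
    symm
    refine Finset.sum_eq_zero fun i _ => ?_
    simp only [mem_part, mem_filter]
    by_cases h2 : g a = i
    · have h3 : g b ≠ i := fun h => hg (h2.trans h.symm)
      simp [h3]
    · simp [h2]
  · rw [Finset.sum_eq_single (g a)]
    · have hb : b ∈ part g (g a) := (mem_part g).mpr hg.symm
      have ha : a ∈ part g (g a) := (mem_part g).mpr rfl
      have hfa : a ∈ S.filter (fun v => g v = g a) ↔ a ∈ S := by simp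
      have hfb : b ∈ S.filter (fun v => g v = g a) ↔ b ∈ S := by simp [hg]
      rw [if_pos ha, if_pos hb]
      by_cases hS : a ∈ S ∧ b ∈ S
      · rw [if_pos (hfa.mpr hS.1), if_pos (hfb.mpr hS.2)]
        have h1 : ∀ c : V, ((QE (col g S T a) (col g S T b) (col g S T c)).toNat : ℤ) =
            (if c ∈ (part g (g a)) then (1 : ℤ) else 0) - (if c ∈ S.filter (fun v => g v = g a) then 1 else 0) +
              (if c ∈ T.filter (fun v => g v = g a + 2) then 1 else 0) := by
          intro c
          have e1 : (col g S T a).1 = (col g S T b).1 := hg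
          have e2 : (col g S T a).2 = 2 ∧ (col g S T b).2 = 2 := ⟨(hc2 a).mpr hS.1, (hc2 b).mpr hS.2⟩
          have e3 : (col g S T a).1 = g a := rfl
          have e4 : (col g S T c).1 = g c := rfl
          simp only [QE, e1, e2, if_true, and_self, decide_true, Bool.true_and]
          rw [← e1, e3, e4]
          simp only [mem_part, mem_filter]
          by_cases h2 : g c = g a
          · have h3 : g c ≠ g a + 2 := by rw [h2]; exact i3 _
            by_cases h4 : c ∈ S
            · have := (hc2 c).mpr h4
              simp [h2, h4, this, i3]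
            · have : (col g S T c).2 ≠ 2 := fun h => h4 ((hc2 c).mp h)
              simp [h2, h4, this, i3]
          · by_cases h3 : g c = g a + 2
            · have h5 := hc0 c
              by_cases h4 : c ∈ T
              · have := h5.mpr h4
                simp [h3, h4, this, i2]
              · have : ¬ (col g S T c).2 ≠ 0 := fun h => h4 (h5.mp h)
                simp only [ne_eq, not_not] at this
                simp [h3, h4, this, i2]
            · simp [h2, h3]
        rw [Finset.sum_congr rfl fun c _ => h1 c, Finset.sum_add_distrib, Finset.sum_sub_distrib, sum_ind, sum_ind,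
          sum_ind]
        unfold vv ss tt part
        ring
      · have h0 : (if a ∈ S.filter (fun v => g v = g a) then (1 : ℤ) else 0) *
            (if b ∈ S.filter (fun v => g v = g a) then 1 else 0) = 0 := by
          by_cases h2 : a ∈ S
          · have h3 : b ∉ S := fun h => hS ⟨h2, h⟩
            rw [if_neg (fun h => h3 (hfb.mp h)), mul_zero]
          · rw [if_neg (fun h => h2 (hfa.mp h)), zero_mul]
        rw [h0]
        have h1 : ∀ c : V, ((QE (col g S T a) (col g S T b) (col g S T c)).toNat : ℤ) =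
            (if c ∈ (part g (g a + 1)) then (1 : ℤ) else 0) := by
          intro c
          have e1 : (col g S T a).1 = (col g S T b).1 := hg
          have e2 : ¬ ((col g S T a).2 = 2 ∧ (col g S T b).2 = 2) :=
            fun h => hS ⟨(hc2 a).mp h.1, (hc2 b).mp h.2⟩
          have e3 : (col g S T a).1 = g a := rfl
          have e4 : (col g S T c).1 = g c := rfl
          simp only [QE]
          rw [if_neg e2, ← e1, e3, e4]
          simp only [mem_part]
          by_cases h2 : g c = g a + 1 <;> simp [h2]
        rw [Finset.sum_congr rfl fun c _ => h1 c, sum_ind]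
        unfold vv part
        ring
    · intro i _ hi
      have h2 : a ∉ part g i := fun h => hi ((mem_part g).mp h).symm
      have h3 : a ∉ S.filter (fun v => g v = i) := fun h => hi (mem_filter.mp h).2.symm
      rw [if_neg h2, if_neg h3]
      ring
    · intro h
      exact absurd (mem_univ _) h

variable {S T} in
theorem A3_Q (hST : S ⊆ T) : A3 (fun a b c => ((QE (col g S T a) (col g S T b) (col g S T c)).toNat : ℤ)) =
    ∑ i, (vv g i * (vv g i - 1) * vv g (i + 1) +
      ss g S i * (ss g S i - 1) * (vv g i - ss g S i + tt g T (i + 2) - vv g (i + 1))) := by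
  have h1 : A3 (fun a b c => ((QE (col g S T a) (col g S T b) (col g S T c)).toNat : ℤ)) =
      ∑ a : V, ∑ b : V, if a ≠ b then ∑ c : V, ((QE (col g S T a) (col g S T b) (col g S T c)).toNat : ℤ) else 0 := by
    unfold A3
    beta_reduce
    refine Finset.sum_congr rfl fun a _ => Finset.sum_congr rfl fun b _ => ?_
    by_cases hab : a ≠ b
    · rw [if_pos hab]
      refine Finset.sum_congr rfl fun c _ => ?_
      by_cases hd : a ≠ b ∧ a ≠ c ∧ b ≠ c
      · rw [if_pos hd]
      · rw [if_neg hd]
        symm
        have hc : c = a ∨ c = b := by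
          by_contra hcon
          push Not at hcon
          exact hd ⟨hab, hcon.1.symm, hcon.2.symm⟩
        have key : ∀ x y : Col, QE x y x = false ∧ QE x y y = false := by decide +kernel
        rcases hc with rfl | rfl
        · rw [(key _ _).1]; rfl
        · rw [(key _ _).2]; rfl
    · rw [if_neg hab]
      refine Finset.sum_eq_zero fun c _ => if_neg fun h => hab h.1
  rw [h1]
  simp_rw [sum_Q g hST]
  have h2 : ∀ a b : V, (if a ≠ b then ∑ i, ((if a ∈ part g i then (1 : ℤ) else 0) * (if b ∈ part g i then 1 else 0) * vv g (i + 1) +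
        (if a ∈ S.filter (fun v => g v = i) then (1 : ℤ) else 0) * (if b ∈ S.filter (fun v => g v = i) then 1 else 0) *
          (vv g i - ss g S i + tt g T (i + 2) - vv g (i + 1))) else 0) =
      ∑ i, ((if a ≠ b then (if a ∈ part g i then (1 : ℤ) else 0) * (if b ∈ part g i then 1 else 0) else 0) * vv g (i + 1) +
        (if a ≠ b then (if a ∈ S.filter (fun v => g v = i) then (1 : ℤ) else 0) *
          (if b ∈ S.filter (fun v => g v = i) then 1 else 0) else 0) *
          (vv g i - ss g S i + tt g T (i + 2) - vv g (i + 1))) := by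
    intro a b
    by_cases hab : a = b
    · simp [hab]
    · simp only [ne_eq, hab, not_false_eq_true, if_true]
  simp_rw [h2]
  rw [Finset.sum_congr rfl fun a _ => Finset.sum_comm, Finset.sum_comm]
  refine Finset.sum_congr rfl fun i _ => ?_
  simp_rw [Finset.sum_add_distrib, ← Finset.sum_mul]
  rw [sum_off, sum_off]
  rfl

/-- the number of edges -/
theorem card_HF (hST : S ⊆ T) : 2 * ((HF g S T).card : ℤ) = 2 * (vv g 0 * vv g 1 * vv g 2) +
    ∑ i, (vv g i * (vv g i - 1) * vv g (i + 1) +
      ss g S i * (ss g S i - 1) * (vv g i - ss g S i + tt g T (i + 2) - vv g (i + 1))) := by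
  have h1 := ord3 (HF g S T) (HF_is3 g S T)
  have h2 : (6 : ℤ) * ((HF g S T).card : ℤ) =
      A3 (fun a b c => ((E (col g S T a) (col g S T b) (col g S T c)).toNat : ℤ)) := by
    have h3 : ((6 * (HF g S T).card : ℕ) : ℤ) = 6 * ((HF g S T).card : ℤ) := by push_cast; ring
    rw [← h3, h1]
    push_cast
    unfold A3
    beta_reduce
    refine Finset.sum_congr rfl fun a _ => Finset.sum_congr rfl fun b _ => Finset.sum_congr rfl fun c _ => ?_
    by_cases hd : a ≠ b ∧ a ≠ c ∧ b ≠ c
    · rw [if_pos hd]
      have := mem_HF g S T hd.1 hd.2.1 hd.2.2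
      by_cases hE : E (col g S T a) (col g S T b) (col g S T c) = true
      · rw [if_pos ⟨hd, this.mpr hE⟩, hE]; rfl
      · rw [if_neg (fun h => hE (this.mp h.2))]
        rw [Bool.not_eq_true] at hE
        rw [hE]; rfl
    · rw [if_neg hd, if_neg (fun h => hd h.1)]
  have h3 : A3 (fun a b c => ((E (col g S T a) (col g S T b) (col g S T c)).toNat : ℤ)) =
      A3 (fun a b c => ((TE (col g S T a) (col g S T b) (col g S T c)).toNat : ℤ)) +
      3 * A3 (fun a b c => ((QE (col g S T a) (col g S T b) (col g S T c)).toNat : ℤ)) := by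
    have e0 : (fun a b c : V => ((E (col g S T a) (col g S T b) (col g S T c)).toNat : ℤ)) =
        fun a b c => (((TE (col g S T a) (col g S T b) (col g S T c)).toNat : ℤ) +
          ((QE (col g S T a) (col g S T b) (col g S T c)).toNat : ℤ) +
          ((QE (col g S T b) (col g S T c) (col g S T a)).toNat : ℤ)) +
          ((QE (col g S T c) (col g S T a) (col g S T b)).toNat : ℤ) := by
      funext a b c
      rw [E_ind]
      push_cast
      ring
    rw [e0, A3_add (fun a b c => (((TE (col g S T a) (col g S T b) (col g S T c)).toNat : ℤ) +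
          ((QE (col g S T a) (col g S T b) (col g S T c)).toNat : ℤ) +
          ((QE (col g S T b) (col g S T c) (col g S T a)).toNat : ℤ))),
      A3_add (fun a b c => (((TE (col g S T a) (col g S T b) (col g S T c)).toNat : ℤ) +
          ((QE (col g S T a) (col g S T b) (col g S T c)).toNat : ℤ))),
      A3_add (fun a b c => ((TE (col g S T a) (col g S T b) (col g S T c)).toNat : ℤ))]
    have r1 : A3 (fun a b c => ((QE (col g S T b) (col g S T c) (col g S T a)).toNat : ℤ)) =
        A3 (fun a b c => ((QE (col g S T a) (col g S T b) (col g S T c)).toNat : ℤ)) :=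
      A3_rot (fun a b c => ((QE (col g S T a) (col g S T b) (col g S T c)).toNat : ℤ))
    have r2 : A3 (fun a b c => ((QE (col g S T c) (col g S T a) (col g S T b)).toNat : ℤ)) =
        A3 (fun a b c => ((QE (col g S T b) (col g S T c) (col g S T a)).toNat : ℤ)) :=
      A3_rot (fun a b c => ((QE (col g S T b) (col g S T c) (col g S T a)).toNat : ℤ))
    rw [r2, r1]
    ring
  rw [h3, A3_T, A3_Q g hST] at h2
  linarith

/-! copies of `K_4^3` -/

variable {S T} in
theorem A4_U (hST : S ⊆ T) :
    A4 (fun a b c d => ((UE (col g S T a) (col g S T b) (col g S T c) (col g S T d)).toNat : ℤ)) =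
      ∑ i, (tt g T i * (tt g T i - 1) - ss g S i * (ss g S i - 1)) * (ss g S (i + 1) * (ss g S (i + 1) - 1)) := by
  have hc2 : ∀ v : V, (col g S T v).2 = 2 ↔ v ∈ S := by
    intro v
    simp only [col]
    by_cases h1 : v ∈ S
    · simp [h1]
    · by_cases h2 : v ∈ T <;> simp [h1, h2]
  have hc0 : ∀ v : V, (col g S T v).2 ≠ 0 ↔ v ∈ T := by
    intro v
    simp only [col]
    by_cases h1 : v ∈ S
    · simp [h1, hST h1]
    · by_cases h2 : v ∈ T <;> simp [h1, h2]
  -- the indicator as a sum over the parts
  have h1 : ∀ a b c d : V, ((UE (col g S T a) (col g S T b) (col g S T c) (col g S T d)).toNat : ℤ) =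
      ∑ i, ((if a ∈ T.filter (fun v => g v = i) then (1 : ℤ) else 0) * (if b ∈ T.filter (fun v => g v = i) then 1 else 0) -
        (if a ∈ S.filter (fun v => g v = i) then (1 : ℤ) else 0) * (if b ∈ S.filter (fun v => g v = i) then 1 else 0)) *
        ((if c ∈ S.filter (fun v => g v = i + 1) then (1 : ℤ) else 0) * (if d ∈ S.filter (fun v => g v = i + 1) then 1 else 0)) := by
    intro a b c d
    rw [Finset.sum_eq_single (g a)]
    · simp only [mem_filter, and_true]
      have e1 : (col g S T a).1 = g a := rfl
      have e2 : (col g S T b).1 = g b := rfl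
      have e3 : (col g S T c).1 = g c := rfl
      have e4 : (col g S T d).1 = g d := rfl
      simp only [UE, hc2, hc0, e1, e2, e3, e4]
      have haST : a ∈ S → a ∈ T := fun h => hST h
      have hbST : b ∈ S → b ∈ T := fun h => hST h
      by_cases p1 : g a = g b <;> by_cases p2 : g c = g a + 1 <;> by_cases p3 : g d = g a + 1 <;>
        by_cases q1 : a ∈ S <;> by_cases q2 : b ∈ S <;> by_cases q3 : a ∈ T <;> by_cases q4 : b ∈ T <;>
        by_cases q5 : c ∈ S <;> by_cases q6 : d ∈ S <;>
        simp_all [eq_comm]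
    · intro i _ hi
      have h2 : a ∉ T.filter (fun v => g v = i) := fun h => hi (mem_filter.mp h).2.symm
      have h3 : a ∉ S.filter (fun v => g v = i) := fun h => hi (mem_filter.mp h).2.symm
      rw [if_neg h2, if_neg h3]
      ring
    · intro h
      exact absurd (mem_univ _) h
  have key : ∀ x y z w : Col, (UE x y z w).toNat ≠ 0 → x ≠ z ∧ x ≠ w ∧ y ≠ z ∧ y ≠ w := by decide +kernel
  have h2 : A4 (fun a b c d => ((UE (col g S T a) (col g S T b) (col g S T c) (col g S T d)).toNat : ℤ)) =
      ∑ a : V, ∑ b : V, ∑ c : V, ∑ d : V, (if a ≠ b then (1 : ℤ) else 0) * (if c ≠ d then (1 : ℤ) else 0) *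
        ((UE (col g S T a) (col g S T b) (col g S T c) (col g S T d)).toNat : ℤ) := by
    unfold A4
    beta_reduce
    refine Finset.sum_congr rfl fun a _ => Finset.sum_congr rfl fun b _ => Finset.sum_congr rfl fun c _ =>
      Finset.sum_congr rfl fun d _ => ?_
    by_cases hU : (UE (col g S T a) (col g S T b) (col g S T c) (col g S T d)).toNat = 0
    · rw [hU]
      simp
    · obtain ⟨k1, k2, k3, k4⟩ := key _ _ _ _ hU
      have n1 : a ≠ c := fun h => k1 (by rw [h])
      have n2 : a ≠ d := fun h => k2 (by rw [h])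
      have n3 : b ≠ c := fun h => k3 (by rw [h])
      have n4 : b ≠ d := fun h => k4 (by rw [h])
      by_cases hab : a = b
      · simp [hab]
      · by_cases hcd : c = d
        · simp [hcd]
        · rw [if_pos ⟨hab, n1, n2, n3, n4, hcd⟩, if_pos hab, if_pos hcd]
          ring
  rw [h2]
  simp_rw [h1]
  have h3 : ∀ a b c d : V, (if a ≠ b then (1 : ℤ) else 0) * (if c ≠ d then (1 : ℤ) else 0) *
      ∑ i, ((if a ∈ T.filter (fun v => g v = i) then (1 : ℤ) else 0) * (if b ∈ T.filter (fun v => g v = i) then 1 else 0) -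
        (if a ∈ S.filter (fun v => g v = i) then (1 : ℤ) else 0) * (if b ∈ S.filter (fun v => g v = i) then 1 else 0)) *
        ((if c ∈ S.filter (fun v => g v = i + 1) then (1 : ℤ) else 0) * (if d ∈ S.filter (fun v => g v = i + 1) then 1 else 0)) =
      ∑ i, ((if a ≠ b then (if a ∈ T.filter (fun v => g v = i) then (1 : ℤ) else 0) *
          (if b ∈ T.filter (fun v => g v = i) then 1 else 0) else 0) -
        (if a ≠ b then (if a ∈ S.filter (fun v => g v = i) then (1 : ℤ) else 0) *
          (if b ∈ S.filter (fun v => g v = i) then 1 else 0) else 0)) *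
        (if c ≠ d then (if c ∈ S.filter (fun v => g v = i + 1) then (1 : ℤ) else 0) *
          (if d ∈ S.filter (fun v => g v = i + 1) then 1 else 0) else 0) := by
    intro a b c d
    rw [Finset.mul_sum]
    refine Finset.sum_congr rfl fun i _ => ?_
    by_cases hab : a = b
    · simp [hab]
    · by_cases hcd : c = d
      · simp [hcd]
      · simp only [ne_eq, hab, hcd, not_false_eq_true, if_true]
        ring
  simp_rw [h3]
  have h4 : ∀ a b : V, ∑ c : V, ∑ d : V, ∑ i,
      ((if a ≠ b then (if a ∈ T.filter (fun v => g v = i) then (1 : ℤ) else 0) *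
          (if b ∈ T.filter (fun v => g v = i) then 1 else 0) else 0) -
        (if a ≠ b then (if a ∈ S.filter (fun v => g v = i) then (1 : ℤ) else 0) *
          (if b ∈ S.filter (fun v => g v = i) then 1 else 0) else 0)) *
        (if c ≠ d then (if c ∈ S.filter (fun v => g v = i + 1) then (1 : ℤ) else 0) *
          (if d ∈ S.filter (fun v => g v = i + 1) then 1 else 0) else 0) =
      ∑ i, ((if a ≠ b then (if a ∈ T.filter (fun v => g v = i) then (1 : ℤ) else 0) *
          (if b ∈ T.filter (fun v => g v = i) then 1 else 0) else 0) -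
        (if a ≠ b then (if a ∈ S.filter (fun v => g v = i) then (1 : ℤ) else 0) *
          (if b ∈ S.filter (fun v => g v = i) then 1 else 0) else 0)) *
        (ss g S (i + 1) * (ss g S (i + 1) - 1)) := by
    intro a b
    rw [Finset.sum_congr rfl fun c _ => Finset.sum_comm, Finset.sum_comm]
    refine Finset.sum_congr rfl fun i _ => ?_
    simp_rw [← Finset.mul_sum]
    rw [sum_off]
    rfl
  simp_rw [h4]
  rw [Finset.sum_congr rfl fun a _ => Finset.sum_comm, Finset.sum_comm]
  refine Finset.sum_congr rfl fun i _ => ?_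
  simp_rw [← Finset.sum_mul, Finset.sum_sub_distrib]
  rw [sum_off, sum_off]
  rfl

/-- the number of copies of `K_4^3` -/
theorem card_k4 (hST : S ⊆ T) : 4 * ((k4set (HF g S T)).card : ℤ) =
    ∑ i, (tt g T i * (tt g T i - 1) - ss g S i * (ss g S i - 1)) * (ss g S (i + 1) * (ss g S (i + 1) - 1)) := by
  have hK : ∀ e ∈ k4set (HF g S T), e.card = 4 := fun e he => (mem_filter.mp he).2.1
  have h1 := ord4 (k4set (HF g S T)) hK
  have hmem : ∀ a b c d : V, a ≠ b → a ≠ c → a ≠ d → b ≠ c → b ≠ d → c ≠ d →
      (({a, b, c, d} : Finset V) ∈ k4set (HF g S T) ↔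
        (E (col g S T a) (col g S T b) (col g S T c) && E (col g S T a) (col g S T b) (col g S T d) &&
          E (col g S T a) (col g S T c) (col g S T d) && E (col g S T b) (col g S T c) (col g S T d)) = true) := by
    intro a b c d hab hac had hbc hbd hcd
    simp only [Bool.and_eq_true]
    rw [← mem_HF g S T hab hac hbc, ← mem_HF g S T hab had hbd, ← mem_HF g S T hac had hcd,
      ← mem_HF g S T hbc hbd hcd]
    unfold k4set
    rw [mem_filter]
    constructor
    · rintro ⟨-, -, h⟩
      refine ⟨⟨⟨h _ ?_ ?_, h _ ?_ ?_⟩, h _ ?_ ?_⟩, h _ ?_ ?_⟩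
      · intro x hx; simp only [mem_insert, mem_singleton] at hx ⊢; tauto
      · exact Finset.card_eq_three.mpr ⟨_, _, _, hab, hac, hbc, rfl⟩
      · intro x hx; simp only [mem_insert, mem_singleton] at hx ⊢; tauto
      · exact Finset.card_eq_three.mpr ⟨_, _, _, hab, had, hbd, rfl⟩
      · intro x hx; simp only [mem_insert, mem_singleton] at hx ⊢; tauto
      · exact Finset.card_eq_three.mpr ⟨_, _, _, hac, had, hcd, rfl⟩
      · intro x hx; simp only [mem_insert, mem_singleton] at hx ⊢; tauto
      · exact Finset.card_eq_three.mpr ⟨_, _, _, hbc, hbd, hcd, rfl⟩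
    · rintro ⟨⟨⟨h1, h2⟩, h3⟩, h4⟩
      have hc4 : ({a, b, c, d} : Finset V).card = 4 := Finset.card_eq_four.mpr ⟨a, b, c, d, hab, hac, had, hbc, hbd, hcd, rfl⟩
      refine ⟨mem_univ _, hc4, ?_⟩
      intro f hf hf3
      -- the missing vertex
      obtain ⟨x, hx, hxf⟩ : ∃ x ∈ ({a, b, c, d} : Finset V), f = ({a, b, c, d} : Finset V).erase x := by
        have h5 : (({a, b, c, d} : Finset V) \ f).card = 1 := by
          rw [card_sdiff_of_subset hf, hc4, hf3]
        obtain ⟨x, hx⟩ := Finset.card_eq_one.mp h5
        refine ⟨x, ?_, ?_⟩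
        · have : x ∈ ({a, b, c, d} : Finset V) \ f := by rw [hx]; simp
          exact (mem_sdiff.mp this).1
        · rw [← Finset.sdiff_singleton_eq_erase, ← hx, Finset.sdiff_sdiff_eq_self hf]
      simp only [mem_insert, mem_singleton] at hx
      rcases hx with rfl | rfl | rfl | rfl
      · have : ({x, b, c, d} : Finset V).erase x = {b, c, d} := by
          ext y; simp only [mem_erase, mem_insert, mem_singleton]
          constructor
          · tauto
          · rintro (rfl | rfl | rfl)
            · exact ⟨hab.symm, by tauto⟩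
            · exact ⟨hac.symm, by tauto⟩
            · exact ⟨had.symm, by tauto⟩
        rw [hxf, this]; exact h4
      · have : ({a, x, c, d} : Finset V).erase x = {a, c, d} := by
          ext y; simp only [mem_erase, mem_insert, mem_singleton]
          constructor
          · tauto
          · rintro (rfl | rfl | rfl)
            · exact ⟨hab, by tauto⟩
            · exact ⟨hbc.symm, by tauto⟩
            · exact ⟨hbd.symm, by tauto⟩
        rw [hxf, this]; exact h3
      · have : ({a, b, x, d} : Finset V).erase x = {a, b, d} := by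
          ext y; simp only [mem_erase, mem_insert, mem_singleton]
          constructor
          · tauto
          · rintro (rfl | rfl | rfl)
            · exact ⟨hac, by tauto⟩
            · exact ⟨hbc, by tauto⟩
            · exact ⟨hcd.symm, by tauto⟩
        rw [hxf, this]; exact h2
      · have : ({a, b, c, x} : Finset V).erase x = {a, b, c} := by
          ext y; simp only [mem_erase, mem_insert, mem_singleton]
          constructor
          · tauto
          · rintro (rfl | rfl | rfl)
            · exact ⟨had, by tauto⟩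
            · exact ⟨hbd, by tauto⟩
            · exact ⟨hcd, by tauto⟩
        rw [hxf, this]; exact h1
  have h2 : (24 : ℤ) * ((k4set (HF g S T)).card : ℤ) =
      A4 (fun a b c d => (((E (col g S T a) (col g S T b) (col g S T c) && E (col g S T a) (col g S T b) (col g S T d) &&
          E (col g S T a) (col g S T c) (col g S T d) && E (col g S T b) (col g S T c) (col g S T d))).toNat : ℤ)) := by
    have h3 : ((24 * (k4set (HF g S T)).card : ℕ) : ℤ) = 24 * ((k4set (HF g S T)).card : ℤ) := by push_cast; ring
    rw [← h3, h1]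
    push_cast
    unfold A4
    beta_reduce
    refine Finset.sum_congr rfl fun a _ => Finset.sum_congr rfl fun b _ => Finset.sum_congr rfl fun c _ =>
      Finset.sum_congr rfl fun d _ => ?_
    by_cases hd : a ≠ b ∧ a ≠ c ∧ a ≠ d ∧ b ≠ c ∧ b ≠ d ∧ c ≠ d
    · rw [if_pos hd]
      have := hmem a b c d hd.1 hd.2.1 hd.2.2.1 hd.2.2.2.1 hd.2.2.2.2.1 hd.2.2.2.2.2
      by_cases hE : (E (col g S T a) (col g S T b) (col g S T c) && E (col g S T a) (col g S T b) (col g S T d) &&
          E (col g S T a) (col g S T c) (col g S T d) && E (col g S T b) (col g S T c) (col g S T d)) = true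
      · rw [if_pos ⟨hd, this.mpr hE⟩, hE]; rfl
      · rw [if_neg (fun h => hE (this.mp h.2))]
        rw [Bool.not_eq_true] at hE
        rw [hE]; rfl
    · rw [if_neg hd, if_neg (fun h => hd h.1)]
  have h3 : (fun a b c d : V => (((E (col g S T a) (col g S T b) (col g S T c) && E (col g S T a) (col g S T b) (col g S T d) &&
          E (col g S T a) (col g S T c) (col g S T d) && E (col g S T b) (col g S T c) (col g S T d))).toNat : ℤ)) =
      fun a b c d => ((UE (col g S T a) (col g S T b) (col g S T c) (col g S T d)).toNat : ℤ) +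
        ((UE (col g S T a) (col g S T c) (col g S T b) (col g S T d)).toNat : ℤ) +
        ((UE (col g S T a) (col g S T d) (col g S T b) (col g S T c)).toNat : ℤ) +
        ((UE (col g S T b) (col g S T c) (col g S T a) (col g S T d)).toNat : ℤ) +
        ((UE (col g S T b) (col g S T d) (col g S T a) (col g S T c)).toNat : ℤ) +
        ((UE (col g S T c) (col g S T d) (col g S T a) (col g S T b)).toNat : ℤ) := by
    funext a b c d
    rw [K4_ind]
    push_cast
    ring
  rw [h3, A4_six (fun a b c d => ((UE (col g S T a) (col g S T b) (col g S T c) (col g S T d)).toNat : ℤ)),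
    A4_U g hST] at h2
  linarith

end

end Pool.Agent.T2h36.SS
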