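import Pool.Agent.T2h36.SS.Fam

/-! The 3-graphs with three corners on `Fin n`. -/

set_option autoImplicit false
set_option linter.unusedSectionVars false
open Finset

namespace Pool.Agent.T2h36.SS

/-- the vertices -/
abbrev VV (v : Fin 3 → ℕ) : Type := Σ i : Fin 3, Fin (v i)

/-- the first `s i` vertices of each part -/
def seg (v s : Fin 3 → ℕ) : Finset (VV v) := univ.filter fun x => x.2.val < s x.1

theorem seg_sub (v s t : Fin 3 → ℕ) (h : ∀ i, s i ≤ t i) : seg v s ⊆ seg v t := by
  intro x hx
  simp only [seg, mem_filter, mem_univ, true_and] at hx ⊢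
  exact lt_of_lt_of_le hx (h _)

theorem card_seg (v s : Fin 3 → ℕ) (h : ∀ i, s i ≤ v i) (i : Fin 3) :
    ((seg v s).filter fun x => x.1 = i).card = s i := by
  have h1 : ((seg v s).filter fun x => x.1 = i) =
      (univ.filter fun y : Fin (v i) => y.val < s i).map ⟨fun y => (⟨i, y⟩ : VV v), fun y y' hy => by simpa using hy⟩ := by
    ext x
    obtain ⟨j, y⟩ := x
    simp only [seg, mem_filter, mem_univ, true_and, mem_map, Function.Embedding.coeFn_mk]
    constructor
    · rintro ⟨hy, rfl⟩
      exact ⟨y, hy, rfl⟩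
    · rintro ⟨y', hy', hh⟩
      obtain ⟨rfl, hh⟩ := Sigma.mk.inj_iff.mp hh
      rw [heq_eq_eq] at hh
      subst hh
      exact ⟨hy', rfl⟩
  rw [h1, card_map]
  have h2 : (univ.filter fun y : Fin (v i) => y.val < s i) =
      (univ : Finset (Fin (s i))).map (Fin.castLEEmb (h i)) := by
    ext y
    simp only [mem_filter, mem_univ, true_and, mem_map, Fin.castLEEmb_apply]
    constructor
    · intro hy
      exact ⟨⟨y.val, hy⟩, rfl⟩
    · rintro ⟨z, rfl⟩
      exact z.2
  rw [h2, card_map, card_univ, Fintype.card_fin]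

theorem card_part (v : Fin 3 → ℕ) (i : Fin 3) : (univ.filter fun x : VV v => x.1 = i).card = v i := by
  have := card_seg v v (fun _ => le_refl _) i
  have h2 : seg v v = univ := by
    ext x
    simp only [seg, mem_filter, mem_univ, true_and, iff_true]
    exact x.2.2
  rwa [h2] at this

theorem card_VV (v : Fin 3 → ℕ) : Fintype.card (VV v) = v 0 + v 1 + v 2 := by
  rw [Fintype.card_sigma, Fin.sum_univ_three]
  simp

/-- twice the number of edges and four times the number of copies of `K_4^3`, for the model -/
theorem model (v s t : Fin 3 → ℕ) (hs : ∀ i, s i ≤ v i) (ht : ∀ i, t i ≤ v i) (hst : ∀ i, s i ≤ t i) :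
    2 * ((HF (fun x : VV v => x.1) (seg v s) (seg v t)).card : ℤ) = 2 * ((v 0 : ℤ) * v 1 * v 2) +
      ∑ i, ((v i : ℤ) * (v i - 1) * v (i + 1) + s i * (s i - 1) * (v i - s i + t (i + 2) - v (i + 1))) ∧
    4 * ((k4set (HF (fun x : VV v => x.1) (seg v s) (seg v t))).card : ℤ) =
      ∑ i, ((t i : ℤ) * (t i - 1) - s i * (s i - 1)) * (s (i + 1) * (s (i + 1) - 1)) := by
  have h1 := card_HF (fun x : VV v => x.1) (seg v s) (seg v t) (seg_sub v s t hst)
  have h2 := card_k4 (fun x : VV v => x.1) (seg v s) (seg v t) (seg_sub v s t hst)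
  have e1 : ∀ i, vv (fun x : VV v => x.1) i = v i := fun i => by unfold vv; rw [card_part]
  have e2 : ∀ i, ss (fun x : VV v => x.1) (seg v s) i = s i := fun i => by unfold ss; rw [card_seg v s hs]
  have e3 : ∀ i, tt (fun x : VV v => x.1) (seg v t) i = t i := fun i => by unfold tt; rw [card_seg v t ht]
  simp only [e1, e2, e3] at h1 h2
  exact ⟨h1, h2⟩

/-- transfer to another vertex set -/
theorem transfer {V W : Type} [Fintype V] [DecidableEq V] [Fintype W] [DecidableEq W] (e : V ≃ W)
    (H : Finset (Finset V)) (h3 : Is3 H) : ∃ H' : Finset (Finset W), Is3 H' ∧ H'.card = H.card ∧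
      (k4set H').card = (k4set H).card := by
  refine ⟨H.map (Finset.mapEmbedding e.toEmbedding).toEmbedding, ?_, card_map _, ?_⟩
  · intro f hf
    obtain ⟨f', hf', rfl⟩ := Finset.mem_map.mp hf
    have : ((Finset.mapEmbedding e.toEmbedding).toEmbedding f') = f'.map e.toEmbedding := rfl
    rw [this, card_map]
    exact h3 f' hf'
  · have hmem : ∀ f : Finset V, f.map e.toEmbedding ∈ H.map (Finset.mapEmbedding e.toEmbedding).toEmbedding ↔ f ∈ H := by
      intro f
      constructor
      · intro h
        obtain ⟨f', hf', hh⟩ := Finset.mem_map.mp h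
        have : f'.map e.toEmbedding = f.map e.toEmbedding := hh
        rw [Finset.map_inj] at this
        rwa [← this]
      · intro h
        exact Finset.mem_map.mpr ⟨f, h, rfl⟩
    have h1 : k4set (H.map (Finset.mapEmbedding e.toEmbedding).toEmbedding) =
        (k4set H).map (Finset.mapEmbedding e.toEmbedding).toEmbedding := by
      ext f
      obtain ⟨f, rfl⟩ : ∃ f' : Finset V, f = f'.map e.toEmbedding := by
        refine ⟨f.map e.symm.toEmbedding, ?_⟩
        rw [Finset.map_map]
        convert (Finset.map_refl).symm using 2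
        ext a
        simp
      have hm2 : f.map e.toEmbedding ∈ (k4set H).map (Finset.mapEmbedding e.toEmbedding).toEmbedding ↔ f ∈ k4set H := by
        constructor
        · intro h
          obtain ⟨f', hf', hh⟩ := Finset.mem_map.mp h
          have : f'.map e.toEmbedding = f.map e.toEmbedding := hh
          rw [Finset.map_inj] at this
          rwa [← this]
        · intro h
          exact Finset.mem_map.mpr ⟨f, h, rfl⟩
      rw [hm2]
      unfold k4set
      simp only [mem_filter, mem_univ, true_and, card_map]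
      constructor
      · rintro ⟨h4, h⟩
        refine ⟨h4, fun T hT hT3 => ?_⟩
        rw [← hmem]
        exact h _ (Finset.map_subset_map.mpr hT) (by rw [card_map]; exact hT3)
      · rintro ⟨h4, h⟩
        refine ⟨h4, fun T hT hT3 => ?_⟩
        obtain ⟨T', hT', rfl⟩ := Finset.subset_map_iff.mp hT
        rw [card_map] at hT3
        rw [hmem]
        exact h T' hT' hT3
    rw [h1, card_map]

theorem k4set_mono {V : Type} [Fintype V] [DecidableEq V] {H H' : Finset (Finset V)} (h : H ⊆ H') :
    k4set H ⊆ k4set H' := by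
  intro f hf
  unfold k4set at *
  rw [mem_filter] at *
  exact ⟨mem_univ _, hf.2.1, fun T hT hT3 => h (hf.2.2 T hT hT3)⟩

end Pool.Agent.T2h36.SS
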