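import Pool.Agent.T2h36.SS.Model

/-! Choice of the parameters. -/

set_option autoImplicit false
open Finset

namespace Pool.Agent.T2h36.SS

/-- numerical estimate -/
theorem num_big (s q k : ℤ) (hs : 3 ≤ s) (hq : 3 * (s - 1) ^ 2 * (s - 2) < 2 * q)
    (hk0 : 0 ≤ k) (hk : 4 * k ≤ (2 * q + s * (s - 1) - 2) * (3 * s - 1)) : k ^ 3 ≤ 27 * q ^ 4 := by
  obtain ⟨x, rfl⟩ : ∃ x : ℤ, s = x + 3 := ⟨s - 3, by ring⟩
  have hx : 0 ≤ x := by linarith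
  obtain ⟨δ, hδ⟩ : ∃ δ : ℤ, 2 * q = 3 * (x + 2) ^ 2 * (x + 1) + 1 + δ := ⟨2 * q - (3 * (x + 2) ^ 2 * (x + 1) + 1), by ring⟩
  have hδ0 : 0 ≤ δ := by
    have : 3 * (x + 2) ^ 2 * (x + 1) < 2 * q := by
      have e : 3 * (x + 3 - 1) ^ 2 * (x + 3 - 2) = 3 * (x + 2) ^ 2 * (x + 1) := by ring
      rw [e] at hq
      exact hq
    linarith
  have h1 : (4 * k) ^ 3 ≤ ((2 * q + (x + 3) * (x + 3 - 1) - 2) * (3 * (x + 3) - 1)) ^ 3 :=
    pow_le_pow_left₀ (by linarith) hk 3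
  have h2 : ((2 * q + (x + 3) * (x + 3 - 1) - 2) * (3 * (x + 3) - 1)) ^ 3 ≤ 108 * (2 * q) ^ 4 := by
    rw [hδ]
    have h3 : 0 ≤ 108 * (3 * (x + 2) ^ 2 * (x + 1) + 1 + δ) ^ 4 -
        ((3 * (x + 2) ^ 2 * (x + 1) + 1 + δ + (x + 3) * (x + 3 - 1) - 2) * (3 * (x + 3) - 1)) ^ 3 := by
      ring_nf
      positivity
    linarith
  nlinarith

theorem num_small (q k : ℤ) (hq : 1 ≤ q) (hk0 : 0 ≤ k) (hk : 2 * k ≤ 5 * q) : k ^ 3 ≤ 27 * q ^ 4 := by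
  have h1 : (2 * k) ^ 3 ≤ (5 * q) ^ 3 := pow_le_pow_left₀ (by linarith) hk 3
  have h2 : 0 ≤ q ^ 3 := by positivity
  nlinarith

/-- the choice of `s` -/
theorem choose_s (q : ℕ) : ∃ s : ℕ, 2 ≤ s ∧ 2 * q ≤ 3 * s ^ 2 * (s - 1) ∧
    (s = 2 ∨ (3 ≤ s ∧ 3 * (s - 1) ^ 2 * (s - 2) < 2 * q)) := by
  classical
  have hex : ∃ s : ℕ, 2 ≤ s ∧ 2 * q ≤ 3 * s ^ 2 * (s - 1) := by
    refine ⟨q + 2, by omega, ?_⟩
    have : q + 2 - 1 = q + 1 := by omega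
    rw [this]
    nlinarith [Nat.zero_le (q ^ 2), Nat.zero_le (q ^ 3)]
  refine ⟨Nat.find hex, (Nat.find_spec hex).1, (Nat.find_spec hex).2, ?_⟩
  by_cases h : Nat.find hex = 2
  · exact Or.inl h
  · right
    have h2 := (Nat.find_spec hex).1
    have h3 : 3 ≤ Nat.find hex := by omega
    refine ⟨h3, ?_⟩
    have hmin := Nat.find_min hex (m := Nat.find hex - 1) (by omega)
    push Not at hmin
    have := hmin (by omega)
    have e : Nat.find hex - 1 - 1 = Nat.find hex - 2 := by omega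
    rwa [e] at this

end Pool.Agent.T2h36.SS
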